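import Pool.Agent.Lib.Coin.Answer
import Pool.Agent.Lib.Coin.ThinEnd
import Pool.Agent.Lib.Coin.IncEq
import Pool.Agent.Lib.Coin.WinFullFin
import Pool.Agent.Lib.Coin.WinEq

/-!
# MP_e3f87b_pr: the winner of a two-pattern coin race flips at most once

`true` = heads, `false` = tails; `Coin.adv A B p` is the advantage `g` of the problem file and
`Coin.Flips g m` says that `g` has at least `m` sign changes on the open unit interval.
-/

namespace Pool.Agent.Results.MP_e3f87b_pr.AtMostOneFlip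

open Coin

theorem result :
    (∀ A B : List Bool, A ≠ [] → B ≠ [] → ∀ m : ℕ, Flips (adv A B) m → m ≤ 1) ∧
    (∀ L1 L2 : ℕ, 1 ≤ L1 → 1 ≤ L2 → IsGreatest {m : ℕ | ∃ A B : List Bool,
      A.length = L1 ∧ B.length = L2 ∧ (∃ p : ℝ, 0 < p ∧ p < 1 ∧ adv A B p ≠ 0) ∧
      Flips (adv A B) m} 1) :=
  answer incFull incEq winFull winEq

end Pool.Agent.Results.MP_e3f87b_pr.AtMostOneFlip
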